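import Pool.Agent.Work.MP_a2ab48_an.Defs
import Pool.Agent.Work.MP_a2ab48_an.Final

/-!
# Zero sets in one component of `H_{5,2}` need not be bi-Lipschitz equivalent

Take `p = x₀² + x₁² - x₂² - x₃²` and `q = 2 (x₀² + x₁² + x₄²) - 3 (x₂² + x₃²)` on `ℝ⁵`.  Every
point of the segment from `p` to `q` is a trace-free diagonal quadratic form with at least two
positive and at least two negative coefficients, and for such forms both `Ω⁺` and `Ω⁻` are NTA
domains.  But `Σ_q \ {0}` carries a nonvanishing continuous function without a continuous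
logarithm (the class of the circle factor), while for every point `y` of `Σ_p` each nonvanishing
continuous function on `Σ_p \ {y}` has a continuous logarithm.
-/

open Set

namespace Pool.Agent.Results.MP_a2ab48_an.QuadricsInR5

open Pool.Agent.Work.MP_a2ab48_an

/-- There are `p, q` in one connected component of `H_{5,2}` (even with the whole segment from `p`
to `q` contained in `H_{5,2}`) whose zero sets are not bi-Lipschitz equivalent, and not even
homeomorphic. -/
theorem result : ∃ p q : V 5 2, p ∈ H 5 2 ∧ q ∈ H 5 2 ∧ q ∈ connectedComponentIn (H 5 2) p ∧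
    (∀ t ∈ Icc (0 : ℝ) 1, (1 - t) • p + t • q ∈ H 5 2) ∧
    IsEmpty (zeroSet p ≃ₜ zeroSet q) ∧ ¬ BiLipschitzEquivalent (zeroSet q) (zeroSet p) := by
  refine ⟨p0, p1, ?_, ?_, mem_component, segment_mem, isEmpty_homeo, fun h => ?_⟩
  · simpa using segment_mem 0 (by simp)
  · simpa using segment_mem 1 (by simp)
  · obtain ⟨f⟩ := h.symm.nonempty_homeo
    exact isEmpty_homeo.false f

end Pool.Agent.Results.MP_a2ab48_an.QuadricsInR5
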